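import Pool.Agent.H87.CcsD

namespace Pool.Agent.Results.MP_c89e4d_an.Yes

open Pool.Agent.H87.CcsD in
/-- Every ccs `Δ`-point of a real or complex normed space is a super `Δ`-point. -/
theorem result.{u} (𝕜 : Type) [RCLike 𝕜] (X : Type u) [NormedAddCommGroup X] [NormedSpace 𝕜 X]
    [NormedSpace ℝ X] [IsScalarTower ℝ 𝕜 X] (x : X) (hx : ‖x‖ = 1) (h : CcsDelta 𝕜 x) :
    SuperDelta 𝕜 x :=
  main hx h

end Pool.Agent.Results.MP_c89e4d_an.Yes
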